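import Pool.Agent.H310R3.Inh.Stmts
import Pool.Agent.H635R2.RealM
import Pool.Agent.H310R3.Real

/-!
# The internal rational numbers are an internal dense linear order, and an image of the natural
numbers
-/

set_option maxHeartbeats 4000000
set_option linter.all false

namespace Pool.Agent.H468R3.Inh

open FirstOrder FirstOrder.Language
open Pool.Agent.Helper672.ZFA
open Pool.Agent.Helper672.ZFA.H635 (intF_of)
open Pool.Agent.H310 (pr pr_inj int_pr)
open Pool.Agent.H310R3.Inh (DLO TaskEnum)

universe u

section

variable (M : Type u) [L.Structure M] [hM : IsModel M]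

/-- The internal rational numbers are a dense linear order without endpoints. -/
theorem dlo_iq : DLO M (IQ M) (fun x y => x < y) where
  int := Pool.Agent.Helper672.ZFA.Int.lt IntF.fst' IntF.snd'
  irrefl := fun a => lt_irrefl a
  trans := fun a b c h1 h2 => lt_trans h1 h2
  total := fun a b => lt_trichotomy a b
  dense := fun a b h => exists_between h
  noMin := fun a => ⟨a - 1, sub_one_lt a⟩
  noMax := fun a => ⟨a + 1, lt_add_one a⟩
  ne := ⟨0⟩

/-- The number `x` is `(a - b) / (c + 1)`, and `n` is the code of `(a, b, c)`. -/
def Rel (q : INat M × IQ M) : Prop :=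
  ∃ a b c : INat M, q.1 = pr (pr a b) c ∧ q.2 * (IQ.of c + 1) + IQ.of b = IQ.of a

theorem int_rel : Int M (Rel M) := by
  have hp := int_pr (M := M)
  have ho : IntF M (fun n : INat M => IQ.of n) := intF_of
  have h : Int M (fun q : INat M × IQ M => ∃ a b c : INat M, q.1 = pr (pr a b) c ∧
      q.2 * (IQ.of c + 1) + IQ.of b = IQ.of a) := by (repeat' (first | with_reducible exact IntF.id | with_reducible exact IntF.fst' | with_reducible exact IntF.snd' | with_reducible exact IntF.const _ | with_reducible exact Int.const _ | assumption | with_reducible apply Int.and | with_reducible apply Int.or | with_reducible apply Int.not | with_reducible apply Int.imp | with_reducible apply Int.iff | with_reducible apply Int.ne | with_reducible apply Int.eq | with_reducible apply Int.mem | with_reducible apply Int.subset | with_reducible apply Int.ltN | with_reducible apply Int.leN | with_reducible_and_instances apply Int.le | with_reducible_and_instances apply Int.lt | with_reducible apply Int.all | with_reducible apply Int.ex | with_reducible apply IntF.fst | with_reducible apply IntF.snd |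 with_reducible apply IntF.app | with_reducible apply IntF.inl | with_reducible apply IntF.inr | with_reducible_and_instances apply IntF.mul | with_reducible_and_instances apply IntF.inv | with_reducible_and_instances apply IntF.add | with_reducible_and_instances apply IntF.sub | with_reducible_and_instances apply IntF.neg | with_reducible_and_instances apply IntF.smul | with_reducible apply IntF.succ | with_reducible apply IntF.val | with_reducible apply IntF.mk | (with_reducible refine Int.comp ?_ ?_; assumption) | (with_reducible refine Int.comp₂ ?_ ?_ ?_; assumption) | (with_reducible refine Int.comp₃ ?_ ?_ ?_ ?_; assumption) | (with_reducible refine Int.comp₄ ?_ ?_ ?_ ?_ ?_; assumption) | (with_reducible refine IntF.comp ?_ ?_; assumption) | (with_reducible refine IntF.comp₂ ?_ ?_ ?_; assumption) | (with_reducible refine IntF.comp₃ ?_ ?_ ?_ ?_; assumption) | with_reducible apply IntF.pair))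
  exact h

theorem of_pos (c : INat M) : (0 : IQ M) < IQ.of c + 1 :=
  add_pos_of_nonneg_of_pos (IQ.of_nonneg c) zero_lt_one

theorem rel_unique (n : INat M) (x y : IQ M) (h1 : Rel M (n, x)) (h2 : Rel M (n, y)) : x = y := by
  obtain ⟨a, b, c, e1, e2⟩ := h1
  obtain ⟨a', b', c', e3, e4⟩ := h2
  obtain ⟨e5, e6⟩ := pr_inj (e1.symm.trans e3)
  obtain ⟨e7, e8⟩ := pr_inj e5
  subst e6 e7 e8
  have e9 : x * (IQ.of c + 1) = y * (IQ.of c + 1) := add_right_cancel (e2.trans e4.symm)
  exact mul_right_cancel₀ (of_pos M c).ne' e9

theorem rel_surj (x : IQ M) : ∃ n, Rel M (n, x) := by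
  obtain ⟨a, c, h | h⟩ := IQ.cases x
  · refine ⟨pr (pr a 0) c, a, 0, c, rfl, ?_⟩
    change x * (IQ.of c + 1) + IQ.of 0 = IQ.of a
    rw [h, IQ.of_zero, add_zero, div_mul_cancel₀ _ (of_pos M c).ne']
  · refine ⟨pr (pr 0 a) c, 0, a, c, rfl, ?_⟩
    change x * (IQ.of c + 1) + IQ.of a = IQ.of 0
    rw [h, IQ.of_zero, neg_mul, div_mul_cancel₀ _ (of_pos M c).ne', neg_add_cancel]

end

theorem taskEnum : TaskEnum := by
  intro M _ _
  exact ⟨IQ M, inferInstance, fun x y => x < y, dlo_iq M, Rel M, int_rel M,
    fun a b b' => rel_unique M a b b', rel_surj M⟩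

end Pool.Agent.H468R3.Inh
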